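import Pool.Agent.R815.EC.Main

/-!
# MP_b75bf2_nt : essential components, the ratio near density zero

All sets contain `0`, `σ` is Mathlib's `schnirelmannDensity` (with classical decidability).
If `B` is an essential component, there is `c > 1` such that for every `k` and all `A`
of sufficiently small positive density, `σ(A + B + ⋯ + B) ≥ c ^ k σ(A)` (`k` summands `B`).
In particular (`k = 1`) the lower limit in the definition of an extraordinary component is
larger than `1` for every essential component.
-/

set_option autoImplicit false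
open Classical
open scoped Pointwise

namespace Pool.Agent.Results.MP_b75bf2_nt.EssentialRatioAboveOne

open Pool.Agent.R815.EC

theorem result :
    ∀ B : Set ℕ, 0 ∈ B →
      (∀ A : Set ℕ, 0 ∈ A → 0 < schnirelmannDensity A → schnirelmannDensity A < 1 →
        schnirelmannDensity A < schnirelmannDensity (A + B)) →
      ∃ c : ℝ, 1 < c ∧ ∀ k : ℕ, ∃ δ : ℝ, 0 < δ ∧
        ∀ A : Set ℕ, 0 ∈ A → 0 < schnirelmannDensity A → schnirelmannDensity A < δ →
          c ^ k * schnirelmannDensity A ≤ schnirelmannDensity ((fun C : Set ℕ => C + B)^[k] A) := by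
  intro B hB hess
  obtain ⟨c, hc, δ, hδ, H⟩ := essential_gt_one hB hess
  have hc0 : 0 < c := by linarith
  refine ⟨c, hc, fun k => ?_⟩
  induction k with
  | zero => exact ⟨1, one_pos, fun A _ _ _ => by rw [pow_zero, one_mul]; exact le_refl _⟩
  | succ k ih =>
    obtain ⟨δk, hδk, Hk⟩ := ih
    refine ⟨min δk (δ / c ^ (k + 1)), lt_min hδk (by positivity), fun A h0 hpos hlt => ?_⟩
    have h1 := Hk A h0 hpos (hlt.trans_le (min_le_left _ _))
    have h2 : schnirelmannDensity A < δ / c ^ (k + 1) := hlt.trans_le (min_le_right _ _)
    rw [lt_div_iff₀ (by positivity), mul_comm] at h2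
    have hmem : ∀ j : ℕ, 0 ∈ (fun C : Set ℕ => C + B)^[j] A := by
      intro j
      induction j with
      | zero => exact h0
      | succ j ihj =>
        rw [Function.iterate_succ_apply']
        exact subset_add hB ihj
    rw [Function.iterate_succ_apply']
    have hck : 0 < c ^ k := by positivity
    have h3 : 0 < schnirelmannDensity ((fun C : Set ℕ => C + B)^[k] A) :=
      lt_of_lt_of_le (by positivity) h1
    rcases lt_or_ge (schnirelmannDensity ((fun C : Set ℕ => C + B)^[k] A)) δ with h4 | h4
    · refine le_trans ?_ (H _ (hmem k) h3 h4)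
      rw [pow_succ, mul_comm (c ^ k) c, mul_assoc]
      exact mul_le_mul_of_nonneg_left h1 hc0.le
    · exact h2.le.trans (h4.trans (sd_mono (subset_add hB)))

end Pool.Agent.Results.MP_b75bf2_nt.EssentialRatioAboveOne
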