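import Pool.Agent.R815.EC.Main

/-!
# MP_b75bf2_nt : the lower limit is a supremum over density levels

All sets contain `0`, `σ` is Mathlib's `schnirelmannDensity` (with classical decidability).
For every `B` and real `K`: `liminf σ(A + B) / σ(A) ≥ K` as `σ(A) → 0` if and only if
for every `M < K` there is one level `β ∈ (0, 1]` with `σ(A + B) ≥ M β` for all `A` with
`σ(A) ≥ β`.
-/

set_option autoImplicit false
open Classical
open scoped Pointwise

namespace Pool.Agent.Results.MP_b75bf2_nt.LiminfIsSupremum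

open Pool.Agent.R815.EC

theorem result (B : Set ℕ) (hB : 0 ∈ B) (K : ℝ) :
    (∀ M : ℝ, M < K → ∃ δ : ℝ, 0 < δ ∧
        ∀ A : Set ℕ, 0 ∈ A → 0 < schnirelmannDensity A → schnirelmannDensity A < δ →
          M * schnirelmannDensity A ≤ schnirelmannDensity (A + B)) ↔
      (∀ M : ℝ, M < K → ∃ β : ℝ, 0 < β ∧ β ≤ 1 ∧
        ∀ A : Set ℕ, 0 ∈ A → β ≤ schnirelmannDensity A →
          M * β ≤ schnirelmannDensity (A + B)) := by
  constructor
  · intro h M hM
    rcases le_or_gt M 0 with hM0 | hM0
    · refine ⟨1, one_pos, le_refl _, fun A _ _ => ?_⟩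
      rw [mul_one]
      exact hM0.trans schnirelmannDensity_nonneg
    · obtain ⟨δ, hδ, H⟩ := h M hM
      have hβ0 : 0 < min 1 (δ / M) := lt_min one_pos (by positivity)
      refine ⟨min 1 (δ / M), hβ0, min_le_left _ _, ?_⟩
      intro A h0 hA
      rcases lt_or_ge (schnirelmannDensity A) δ with h1 | h1
      · exact (mul_le_mul_of_nonneg_left hA hM0.le).trans (H A h0 (hβ0.trans_le hA) h1)
      · have h2 : M * min 1 (δ / M) ≤ M * (δ / M) :=
          mul_le_mul_of_nonneg_left (min_le_right _ _) hM0.le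
        rw [mul_div_cancel₀ _ hM0.ne'] at h2
        exact h2.trans (h1.trans (sd_mono (subset_add hB)))
  · intro h M hM
    obtain ⟨β, hβ, hβ1, H⟩ := h ((M + K) / 2) (by linarith)
    exact transfer hβ hβ1 (by linarith) H

end Pool.Agent.Results.MP_b75bf2_nt.LiminfIsSupremum
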